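import Pool.Agent.PFS.StmtsH

set_option autoImplicit false

open Matrix Filter Topology

namespace Pool.Agent.PFS.H87

open Pool.Agent.PFS

theorem gh1 : Gh1Stmt := by
  intro X G L h hG k
  induction k with
  | zero =>
    intro c a b hab hk hstep u hu
    refine ⟨a, le_refl a, hab, ?_⟩
    have h1 : G.dist (c a) (c b) ≤ 1 := by
      have h2 : b - a ≤ 1 := by simpa using hk
      rcases (show b = a ∨ b = a + 1 by omega) with h3 | h3
      · rw [h3, SimpleGraph.dist_self]; exact Nat.zero_le 1
      · rw [h3]; exact hstep a (le_refl a) (by omega)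
    have h2 := hG.near _ _ h1 u hu
    rw [SimpleGraph.dist_comm]
    simpa using h2
  | succ k ih =>
    intro c a b hab hk hstep u hu
    have hpow : 2 ^ (k + 1) = 2 ^ k + 2 ^ k := by rw [pow_succ]; ring
    rw [hpow] at hk
    obtain ⟨v, hv, huv⟩ := hG.thin (c a) (c b) (c ((a + b) / 2)) u hu
    have key : ∃ i, a ≤ i ∧ i ≤ b ∧ G.dist v (c i) ≤ h * (k + 1) := by
      rcases hv with hv | hv
      · obtain ⟨i, h1, h2, h3⟩ := ih c a ((a + b) / 2) (by omega) (by omega)
          (fun i hi hi2 => hstep i hi (by omega)) v hv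
        exact ⟨i, h1, by omega, h3⟩
      · obtain ⟨i, h1, h2, h3⟩ := ih c ((a + b) / 2) b (by omega) (by omega)
          (fun i hi hi2 => hstep i (by omega) hi2) v hv
        exact ⟨i, by omega, h2, h3⟩
    obtain ⟨i, h1, h2, h3⟩ := key
    refine ⟨i, h1, h2, ?_⟩
    have h4 := hG.conn.dist_triangle (u := u) (v := v) (w := c i)
    have h5 : h * (k + 1 + 1) = h * (k + 1) + h := by ring
    omega

end Pool.Agent.PFS.H87
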