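import Pool.Agent.PFS.StmtsH

set_option autoImplicit false

open Matrix Filter Topology

namespace Pool.Agent.PFS.H87

open Pool.Agent.PFS

theorem ghl (_geo : GeoStmt) (gh2 : Gh2Stmt) (gh3 : Gh3Stmt) (gh4 : Gh4Stmt) : GhlStmt := by
  intro h
  obtain ⟨D₀, hD₀⟩ := gh2 h
  obtain ⟨D₁, hD₁⟩ := gh3 h
  refine ⟨4 * ((D₁ + h + D₀) + 1), ?_⟩
  intro X G L hG
  refine gh4 X G (D₁ + h + D₀) hG.conn ?_
  intro x y z N N₁ N₂ c e f hc he hf hcx hcy hex hez hfz hfy p hp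
  obtain ⟨u, hu, hpu⟩ := hD₁ X G L hG N c hc p hp
  rw [hcx, hcy] at hu
  obtain ⟨v, hv, huv⟩ := hG.thin x y z u hu
  rcases hv with hv | hv
  · left
    rw [← hex, ← hez] at hv
    obtain ⟨j, hj, hvj⟩ := hD₀ X G L hG N₁ e he v hv
    refine ⟨j, hj, ?_⟩
    have h1 := hG.conn.dist_triangle (u := c p) (v := u) (w := e j)
    have h2 := hG.conn.dist_triangle (u := u) (v := v) (w := e j)
    omega
  · right
    rw [← hfz, ← hfy] at hv
    obtain ⟨j, hj, hvj⟩ := hD₀ X G L hG N₂ f hf v hv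
    refine ⟨j, hj, ?_⟩
    have h1 := hG.conn.dist_triangle (u := c p) (v := u) (w := f j)
    have h2 := hG.conn.dist_triangle (u := u) (v := v) (w := f j)
    omega

end Pool.Agent.PFS.H87
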