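import Pool.Agent.PFS.StmtsH

set_option autoImplicit false

open Matrix Filter Topology

namespace Pool.Agent.PFS.H87

open Pool.Agent.PFS

theorem hyp (cmf : CmfStmt) (cov : CovStmt) (prp : PrpStmt) (thn : ThnStmt) (ghl : GhlStmt)
    (cay : CayStmt) (gen : GenStmt) : HypStmt := by
  intro n C Γ h hno
  obtain ⟨o, hoC, hoH⟩ := h.core
  obtain ⟨M₀, hM₀, hcov⟩ := cov n C Γ h o hoC
  obtain ⟨⟨S, hS, hgen⟩, hchain⟩ := gen n C Γ h o hoC hoH M₀ hM₀ hcov
  obtain ⟨hsym, htr, hmono, hinv, hscale, hrefl, hge1, hseg⟩ := cmf n C Γ h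
  obtain ⟨MT, hMT, hthin⟩ := thn n C Γ h hno
  obtain ⟨hconn, hfin⟩ := cay ↥Γ S hgen
  refine ⟨S, hgen, ?_⟩
  have hmemo : ∀ g : ↥Γ, act (g : GL (Fin n) ℝ) o ∈ C := fun g => h.mem _ g.2 _ hoC
  have hmemH : ∀ g : ↥Γ, act (g : GL (Fin n) ℝ) o ∈ Hull C Γ := fun g =>
    h.hul.act o hoH _ g.2
  -- bounded distances
  have hbd : ∀ M : ℝ, ∃ k : ℕ, ∀ a b : ↥Γ,
      Cmp C M (act (a : GL (Fin n) ℝ) o) (act (b : GL (Fin n) ℝ) o) → (Cay S).dist a b ≤ k := by
    intro M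
    have hF : {γ : ↥Γ | Cmp C M (act (γ : GL (Fin n) ℝ) o) o}.Finite := by
      have h0 : {γ : GL (Fin n) ℝ | γ ∈ Γ ∧ Cmp C M (act γ o) o}.Finite := prp n C Γ h o hoC M
      have h1 : ((fun γ : ↥Γ => (γ : GL (Fin n) ℝ)) ⁻¹'
          {γ : GL (Fin n) ℝ | γ ∈ Γ ∧ Cmp C M (act γ o) o}).Finite :=
        h0.preimage (Set.injOn_of_injective Subtype.val_injective)
      refine h1.subset ?_
      intro γ hγ
      exact ⟨γ.2, hγ⟩
    obtain ⟨k, hk⟩ := hfin _ hF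
    refine ⟨k, fun a b hab => hk a b ?_⟩
    -- Cmp (a o) (b o) -> Cmp (b o) (a o) -> Cmp (a⁻¹ b o) o
    have h1 : Cmp C M (act (b : GL (Fin n) ℝ) o) (act (a : GL (Fin n) ℝ) o) :=
      hsym M _ _ (hmemo a) (hmemo b) hab
    have h2 := (hinv M (act (b : GL (Fin n) ℝ) o) (act (a : GL (Fin n) ℝ) o)
      ((a : GL (Fin n) ℝ)⁻¹) (Γ.inv_mem a.2)).mpr h1
    rw [CC.act_inv_act, ← CC.act_mul] at h2
    change Cmp C M (act ((a⁻¹ * b : ↥Γ) : GL (Fin n) ℝ) o) o
    rw [Subgroup.coe_mul, Subgroup.coe_inv]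
    exact h2
  obtain ⟨k₁, hk₁⟩ := hbd (2 * M₀ ^ 2)
  obtain ⟨k₂, hk₂⟩ := hbd (2 * M₀ ^ 2 * M₀)
  obtain ⟨k₃, hk₃⟩ := hbd (M₀ * MT * M₀)
  let L : ↥Γ → ↥Γ → Set ↥Γ := fun x y =>
    {γ | ∃ z ∈ Seg (act (x : GL (Fin n) ℝ) o) (act (y : GL (Fin n) ℝ) o),
      Cmp C M₀ (act (γ : GL (Fin n) ℝ) o) z}
  have hguess : Guess (Cay S) L (max k₁ (max k₂ k₃)) := by
    refine ⟨hconn, ?_, ?_, ?_⟩
    · intro x y
      obtain ⟨N, c, hc0, hcN, hcL, hcc⟩ := hchain x y
      exact ⟨N, c, hc0, hcN, hcL, fun i hi => (hk₁ _ _ (hcc i hi)).trans (le_max_left _ _)⟩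
    · intro x y hxy u hu
      obtain ⟨z, hz, huz⟩ := hu
      -- x o and y o are comparable
      have hcmp : Cmp C (2 * M₀ ^ 2) (act (x : GL (Fin n) ℝ) o) (act (y : GL (Fin n) ℝ) o) := by
        by_cases hxy' : x = y
        · rw [hxy']
          exact hrefl _ _ (by nlinarith) (hmemo y)
        · have hd0 : (Cay S).dist x y ≠ 0 := by
            intro h0
            exact hxy' ((hconn.dist_eq_zero_iff).mp h0)
          have hd1 : (Cay S).dist x y = 1 := by omega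
          have hadj : (Cay S).Adj x y := SimpleGraph.dist_eq_one_iff_adj.mp hd1
          rw [SimpleGraph.fromRel_adj] at hadj
          have hkey : ∀ a b : ↥Γ, a⁻¹ * b ∈ S →
              Cmp C (2 * M₀ ^ 2) (act (b : GL (Fin n) ℝ) o) (act (a : GL (Fin n) ℝ) o) := by
            intro a b hab
            have h1 := (hS _).mp hab
            rw [Subgroup.coe_mul, Subgroup.coe_inv, CC.act_mul] at h1
            have h2 := (hinv (2 * M₀ ^ 2) (act ((a : GL (Fin n) ℝ)⁻¹) (act (b : GL (Fin n) ℝ) o)) o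
              (a : GL (Fin n) ℝ) a.2).mpr h1
            rwa [CC.act_act_inv] at h2
          rcases hadj.2 with h3 | h3
          · exact hsym _ _ _ (hmemo y) (hmemo x) (hkey x y h3)
          · exact hkey y x h3
      obtain ⟨hzC, hzy, hzx⟩ := hseg _ _ _ (hmemo x) (hmemo y) hcmp z hz
      have hxz := hsym _ _ _ hzC (hmemo x) hzx
      have hzu := hsym _ _ _ (hmemo u) hzC huz
      have h4 : Cmp C (2 * M₀ ^ 2 * M₀) (act (x : GL (Fin n) ℝ) o) (act (u : GL (Fin n) ℝ) o) :=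
        htr _ _ _ _ _ (by nlinarith) (by linarith) (hmemo x) hzC (hmemo u) hxz hzu
      exact (hk₂ _ _ h4).trans ((le_max_left _ _).trans (le_max_right _ _))
    · intro x y z u hu
      obtain ⟨p, hp, hup⟩ := hu
      obtain ⟨q, hq, hpq⟩ := hthin _ (hmemo x) (hmemH x) _ (hmemo y) (hmemH y) _ (hmemo z)
        (hmemH z) p hp
      -- points of a segment of core points are in the core
      have hsegcore : ∀ a b : ↥Γ, ∀ y' ∈ Seg (act (a : GL (Fin n) ℝ) o) (act (b : GL (Fin n) ℝ) o),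
          y' ∈ C ∧ y' ∈ Hull C Γ := by
        rintro a b y' ⟨s, t, hs, ht, hst, rfl⟩
        rcases hs.eq_or_lt with h0 | h0
        · rw [← h0, zero_smul, zero_add]
          have ht' : 0 < t := by rw [← h0, zero_add] at hst; exact hst
          exact ⟨h.smul _ (hmemo b) _ ht', h.hul.smul _ (hmemH b) _ ht'⟩
        · rcases ht.eq_or_lt with h1 | h1
          · rw [← h1, zero_smul, add_zero]
            exact ⟨h.smul _ (hmemo a) _ h0, h.hul.smul _ (hmemH a) _ h0⟩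
          · exact ⟨h.add_cl (h.smul _ (hmemo a) _ h0) (subset_closure (h.smul _ (hmemo b) _ h1)),
              h.hul.add _ (h.hul.smul _ (hmemH a) _ h0) _ (h.hul.smul _ (hmemH b) _ h1)⟩
      have hpC : p ∈ C := (hsegcore x y p hp).1
      have hqcore : q ∈ C ∧ q ∈ Hull C Γ := by
        rcases hq with hq | hq
        · exact hsegcore x z q hq
        · exact hsegcore z y q hq
      obtain ⟨g, hg, hqg⟩ := hcov q hqcore.1 hqcore.2
      have hgo : act g o ∈ C := h.mem g hg _ hoC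
      refine ⟨⟨g, hg⟩, ?_, ?_⟩
      · have h5 : Cmp C M₀ (act g o) q := hsym _ _ _ hqcore.1 hgo hqg
        rcases hq with hq | hq
        · left; exact ⟨q, hq, h5⟩
        · right; exact ⟨q, hq, h5⟩
      · have h6 : Cmp C (M₀ * MT) (act (u : GL (Fin n) ℝ) o) q :=
          htr _ _ _ _ _ (by linarith) (by linarith) (hmemo u) hpC hqcore.1 hup hpq
        have h7 : Cmp C (M₀ * MT * M₀) (act (u : GL (Fin n) ℝ) o) (act g o) :=
          htr _ _ _ _ _ (by nlinarith) (by linarith) (hmemo u) hqcore.1 hgo h6 hqg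
        exact (hk₃ u ⟨g, hg⟩ h7).trans ((le_max_right _ _).trans (le_max_right _ _))
  obtain ⟨δ, hδ⟩ := ghl (max k₁ (max k₂ k₃))
  exact ⟨δ, hδ ↥Γ (Cay S) L hguess⟩

end Pool.Agent.PFS.H87
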