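import Pool.Agent.PFS.StmtsH
import Pool.Agent.Helper60_PFS.Lim0
import Pool.Agent.Helper60_PFS.Simp
import Pool.Agent.Helper81_PFS.FLM
import Pool.Agent.Helper81_PFS.CMC
import Pool.Agent.Helper95_PFSH.COV
import Pool.Agent.Helper95_PFSH.SGC
import Pool.Agent.Helper95_PFSH.GEN
import Pool.Agent.Helper3_PFSH.PRP
import Pool.Agent.Helper90_PFSH.TRI
import Pool.Agent.Helper82_PFSH.THN
import Pool.Agent.Helper33_PFSH.Geo
import Pool.Agent.Helper92_PFSH.GH2
import Pool.Agent.Helper9_PFSH.CAY
import Pool.Agent.Helper87_PFSH.CMF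
import Pool.Agent.Helper87_PFSH.GH1
import Pool.Agent.Helper87_PFSH.GHL
import Pool.Agent.Helper87_PFSH.HYP

set_option autoImplicit false

namespace Pool.Agent.PFS.H87

open Pool.Agent.PFS

/-- hyperbolicity half, unconditional -/
theorem hypFinal : HypStmt := by
  have cmf' := cmf
  have cmc' := H81.cmc
  have zom' := H60.zom
  have lim0' := H60.lim0
  have clo' := H60.clo lim0' zom'
  have flm' := H81.flm lim0' zom' clo'
  have lim' := H60.lim clo' H60.crt
  have tri' : TriStmt := H90.tri zom' flm' lim'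
  have thn' : ThnStmt := H82.thn cmf' cmc' zom' clo' tri'
  have cov' : CovStmt := H95.cov cmf' cmc'
  have sgc' : SgcStmt := H95.sgc
  have prp' : PrpStmt := H3.prp
  have gen' : GenStmt := H95.gen cmf' prp' sgc'
  have geo' : GeoStmt := H33.geo
  have num' : NumStmt := H33.num
  have gh2' : Gh2Stmt := H92.gh2 gh1 num'
  have gh3' : Gh3Stmt := H33.gh3 gh2'
  have gh4' : Gh4Stmt := H33.gh4 geo'
  have ghl' : GhlStmt := ghl geo' gh2' gh3' gh4'
  have cay' : CayStmt := H9.cay
  exact hyp cmf' cov' prp' thn' ghl' cay' gen'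

end Pool.Agent.PFS.H87
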