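import Pool.Agent.PFS.StmtsH

set_option autoImplicit false

open Matrix Filter Topology

namespace Pool.Agent.PFS.H87

open Pool.Agent.PFS

variable {n : ℕ} {C : Set (V n)}

theorem cmp_ge1 (h : PCone C) {M : ℝ} {p q : V n} (hq : q ∈ C) (hpq : Cmp C M p q) : 1 ≤ M := by
  obtain ⟨t, ht, h1, h2⟩ := hpq
  by_contra hM
  push Not at hM
  have h3 : (M - 1) • q ∈ closure C := by
    have h4 := h.le_trans (x := q) (y := t • p) (z := M • q) h1 h2
    rwa [sub_smul, one_smul]
  have h4 : -q ∈ closure C := by
    have h5 := h.cl_smul h3 (t := (1 - M)⁻¹) (inv_pos.mpr (by linarith)).le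
    rw [smul_smul] at h5
    have h6 : (1 - M)⁻¹ * (M - 1) = -1 := by
      have : (1 - M) ≠ 0 := by intro h0; linarith
      field_simp
      ring
    rwa [h6, neg_one_smul] at h5
  exact h.ne_zero hq (h.salient q (subset_closure hq) h4)

theorem cmp_symm (h : PCone C) {M : ℝ} {p q : V n} (hq : q ∈ C) (hpq : Cmp C M p q) :
    Cmp C M q p := by
  have hM := cmp_ge1 h hq hpq
  obtain ⟨t, ht, h1, h2⟩ := hpq
  refine ⟨M / t, by positivity, ?_, ?_⟩
  · have h3 := h.cl_smul h2 (t := t⁻¹) (by positivity)
    have h4 : t⁻¹ • (M • q - t • p) = (M / t) • q - p := by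
      rw [smul_sub, smul_smul, smul_smul, inv_mul_cancel₀ ht.ne', one_smul]
      congr 2
      field_simp
    rwa [h4] at h3
  · have h3 := h.cl_smul h1 (t := M / t) (by positivity)
    have h4 : (M / t) • (t • p - q) = M • p - (M / t) • q := by
      rw [smul_sub, smul_smul, div_mul_cancel₀ _ ht.ne']
    rwa [h4] at h3

theorem cmp_trans (h : PCone C) {M M' : ℝ} {p q r : V n} (hM : 0 ≤ M)
    (h1 : Cmp C M p q) (h2 : Cmp C M' q r) : Cmp C (M * M') p r := by
  obtain ⟨t, ht, a1, a2⟩ := h1
  obtain ⟨s, hs, b1, b2⟩ := h2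
  refine ⟨s * t, by positivity, ?_, ?_⟩
  · have h3 := h.cl_smul a1 hs.le
    rw [smul_sub, smul_smul] at h3
    exact h.le_trans (y := s • q) b1 h3
  · have h3 := h.cl_smul a2 hs.le
    have h4 := h.cl_smul b2 hM
    rw [smul_sub, smul_smul, smul_smul] at h3
    rw [smul_sub, smul_smul, smul_smul] at h4
    rw [mul_comm s M] at h3
    exact h.le_trans (y := (M * s) • q) h3 h4

theorem cmp_seg (h : PCone C) {M : ℝ} {p q : V n} (hp : p ∈ C) (hq : q ∈ C)
    (hpq : Cmp C M p q) {y : V n} (hy : y ∈ Seg p q) : y ∈ C ∧ Cmp C M y q := by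
  have hM := cmp_ge1 h hq hpq
  obtain ⟨t, ht, h1, h2⟩ := hpq
  obtain ⟨a, b, ha, hb, hab, rfl⟩ := hy
  refine ⟨?_, ?_⟩
  · rcases ha.eq_or_lt with h0 | h0
    · rw [← h0, zero_smul, zero_add]
      rw [← h0, zero_add] at hab
      exact h.smul _ hq _ hab
    · exact h.add_cl (h.smul _ hp _ h0) (h.cl_smul (subset_closure hq) hb)
  · have hk : 0 < a / t + b := by
      rcases ha.eq_or_lt with h0 | h0
      · rw [← h0, zero_div]; rw [← h0] at hab; exact hab
      · have : 0 < a / t := by positivity
        linarith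
    refine ⟨(a / t + b)⁻¹, by positivity, ?_, ?_⟩
    · -- y ≥ (a/t+b) q
      have h3 := h.cl_smul h1 (t := a / t) (by positivity)
      have h4 : a • p + b • q - (a / t + b) • q = (a / t) • (t • p - q) := by
        rw [smul_sub, smul_smul, div_mul_cancel₀ _ ht.ne', add_smul]
        abel
      have h5 := h.cl_smul (h4 ▸ h3) (t := (a / t + b)⁻¹) (by positivity)
      rw [smul_sub, smul_smul, inv_mul_cancel₀ hk.ne', one_smul] at h5
      exact h5
    · have h3 := h.cl_smul h2 (t := a / t) (by positivity)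
      have h4 : (M * (a / t + b)) • q - (a • p + b • q)
          = (a / t) • (M • q - t • p) + ((M - 1) * b) • q := by
        rw [smul_sub, smul_smul, smul_smul, div_mul_cancel₀ _ ht.ne', mul_add, add_smul]
        rw [sub_mul, sub_smul, one_mul, mul_comm M (a / t)]
        abel
      have h6 : (M * (a / t + b)) • q - (a • p + b • q) ∈ closure C := by
        rw [h4]
        exact h.cl_add h3 (h.cl_smul (subset_closure hq) (mul_nonneg (by linarith) hb))
      have h5 := h.cl_smul h6 (t := (a / t + b)⁻¹) (by positivity)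
      rw [smul_sub, smul_smul] at h5
      have h7 : (a / t + b)⁻¹ * (M * (a / t + b)) = M := by
        rw [mul_comm M, ← mul_assoc, inv_mul_cancel₀ hk.ne', one_mul]
      rwa [h7] at h5

theorem seg_comm {p q : V n} : Seg p q = Seg q p := by
  ext y
  constructor
  · rintro ⟨a, b, ha, hb, hab, rfl⟩
    exact ⟨b, a, hb, ha, by linarith, by abel⟩
  · rintro ⟨a, b, ha, hb, hab, rfl⟩
    exact ⟨b, a, hb, ha, by linarith, by abel⟩

theorem cmf : CmfStmt := by
  intro n C Γ h
  have hp : PCone C := h.toPCone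
  refine ⟨?_, ?_, ?_, ?_, ?_, ?_, ?_, ?_⟩
  · intro M p q _ hq hpq
    exact cmp_symm hp hq hpq
  · intro M M' p q r hM _ _ _ _ h1 h2
    exact cmp_trans hp hM h1 h2
  · intro M M' p q hMM hq ⟨t, ht, h1, h2⟩
    refine ⟨t, ht, h1, ?_⟩
    have h3 := hp.cl_smul (subset_closure hq) (t := M' - M) (by linarith)
    have h4 : M' • q - t • p = (M • q - t • p) + (M' - M) • q := by
      rw [sub_smul]; abel
    rw [h4]
    exact hp.cl_add h2 h3
  · intro M p q g hg
    constructor
    · rintro ⟨t, ht, h1, h2⟩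
      refine ⟨t, ht, ?_, ?_⟩
      · rw [← CC.act_smul, ← CC.act_sub] at h1
        exact (h.act_cl_iff hg).mp h1
      · rw [← CC.act_smul, ← CC.act_smul, ← CC.act_sub] at h2
        exact (h.act_cl_iff hg).mp h2
    · rintro ⟨t, ht, h1, h2⟩
      refine ⟨t, ht, ?_, ?_⟩
      · rw [← CC.act_smul, ← CC.act_sub]
        exact (h.act_cl_iff hg).mpr h1
      · rw [← CC.act_smul, ← CC.act_smul, ← CC.act_sub]
        exact (h.act_cl_iff hg).mpr h2
  · intro M a b p q ha hb
    constructor
    · rintro ⟨t, ht, h1, h2⟩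
      refine ⟨t * a / b, by positivity, ?_, ?_⟩
      · have h3 := hp.cl_smul h1 (t := b⁻¹) (by positivity)
        have h4 : b⁻¹ • (t • a • p - b • q) = (t * a / b) • p - q := by
          rw [smul_sub, smul_smul, smul_smul, smul_smul, inv_mul_cancel₀ hb.ne', one_smul]
          congr 2
          field_simp
        rwa [h4] at h3
      · have h3 := hp.cl_smul h2 (t := b⁻¹) (by positivity)
        have h4 : b⁻¹ • (M • b • q - t • a • p) = M • q - (t * a / b) • p := by
          rw [smul_sub, smul_smul, smul_smul, smul_smul, smul_smul]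
          congr 2
          · field_simp
          · field_simp
        rwa [h4] at h3
    · rintro ⟨t, ht, h1, h2⟩
      refine ⟨t * b / a, by positivity, ?_, ?_⟩
      · have h3 := hp.cl_smul h1 (t := b) (by positivity)
        have h4 : b • (t • p - q) = (t * b / a) • a • p - b • q := by
          rw [smul_sub, smul_smul, smul_smul]
          congr 2
          field_simp
        rwa [h4] at h3
      · have h3 := hp.cl_smul h2 (t := b) (by positivity)
        have h4 : b • (M • q - t • p) = M • b • q - (t * b / a) • a • p := by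
          rw [smul_sub, smul_smul, smul_smul, smul_smul, smul_smul]
          congr 2
          · rw [mul_comm]
          · field_simp
        rwa [h4] at h3
  · intro M p hM hpC
    refine ⟨1, one_pos, ?_, ?_⟩
    · rw [one_smul, sub_self]; exact hp.zero_cl
    · have h4 : M • p - (1 : ℝ) • p = (M - 1) • p := by rw [sub_smul]
      rw [h4]
      exact hp.cl_smul (subset_closure hpC) (by linarith)
  · intro M p q _ hq hpq
    exact cmp_ge1 hp hq hpq
  · intro M p q hpC hqC hpq y hy
    obtain ⟨h1, h2⟩ := cmp_seg hp hpC hqC hpq hy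
    refine ⟨h1, h2, ?_⟩
    rw [seg_comm] at hy
    exact (cmp_seg hp hqC hpC (cmp_symm hp hqC hpq) hy).2

end Pool.Agent.PFS.H87
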